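import Pool.Agent.H496R3.SympChartAt

/-!
# Explicit, scale invariant, open contractible subsets of `Symp_ct(ℝ^{2n}, ω_st)`

For every linear map `L` of `ℝ^{2n}` with `ω(Lu, v) + ω(u, Lv) = ω(u, v)` and every
`ψ ∈ G = Symp_ct(ℝ^{2n}, ω_st)`, the set of all `φ ∈ G` such that, with `A = D(φ ∘ ψ⁻¹)(z)`, the map
`1 + r L (A - 1)` is invertible for all `z ∈ ℝ^{2n}`, `r ∈ [0, 1]`, is an open contractible
neighbourhood of `ψ` in the direct limit topology. For `L = 1/2` and `ψ = id` this is the set of
all `φ` whose differential has no real eigenvalue `≤ -1` at any point; for `L (x, y) = (x, 0)` it is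
the set of all `φ = (X, Y)` whose block `∂X/∂x` has no real eigenvalue `≤ 0` at any point.
-/

namespace Pool.Agent.Results.MP_ec5dc5_gt.ContractibleCharts

open Pool.Agent.H496R3

theorem result (n : ℕ) (L : Phase n →L[ℝ] Phase n) (hL : IsChartMap L) (ψ : Symp n) :
    IsOpen {φ : Symp n | InChart L (φ.comp ψ.inv)} ∧
      ψ ∈ {φ : Symp n | InChart L (φ.comp ψ.inv)} ∧
      ContractibleSpace {φ : Symp n // InChart L (φ.comp ψ.inv)} :=
  chart_at hL ψ

end Pool.Agent.Results.MP_ec5dc5_gt.ContractibleCharts
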