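import Pool.Agent.H496R3.SympPi

/-!
# `π_0` and all homotopy groups of `Symp_ct(ℝ^{2n}, ω_st)` are countable

Part (c) of Q1 of MP_ec5dc5_gt: the group `G = Symp_ct(ℝ^{2n}, ω_st)`, with its usual direct limit
topology, has only countably many path components; more generally, for every base point and every
`k ≥ 0`, `π_k(G)` is countable. All `n` are covered.

The definitions (`Phase`, `stdForm`, `Symp`, `SympIn`, `jets`, `cinfTopology`, `limitTopology`) are in
`Pool.Agent.H496R3.SympDefs`.
-/

namespace Pool.Agent.Results.MP_ec5dc5_gt.CountablePiZero

open Pool.Agent.H496R3
open scoped Topology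

/-- For every `n`, the group of compactly supported symplectomorphisms of `(ℝ^{2n}, ω_st)`, with the
direct limit topology of the `C^∞` topologies at fixed compact support, has countably many path
components, and all its homotopy groups, at all base points, are countable. -/
theorem result (n : ℕ) :
    Countable (ZerothHomotopy (Symp n)) ∧
      ∀ (k : ℕ) (φ : Symp n), Countable (π_ k (Symp n) φ) := by
  refine ⟨?_, fun k φ => countable_pi k φ⟩
  have h := countable_pi 0 (Symp.one n)
  exact (HomotopyGroup.pi0EquivZerothHomotopy (X := Symp n) (x := Symp.one n)).symm.injective.countable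

end Pool.Agent.Results.MP_ec5dc5_gt.CountablePiZero
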