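import Pool.Agent.H518R3.SY16

set_option autoImplicit false

noncomputable section

open Function Set TopologicalSpace
open scoped Topology ContDiff

namespace Pool.Agent.Results.MP_ec5dc5_gt.HomotopyCommutative

/-- `ℝ^{2n}` with coordinates `(x, y)` -/
abbrev V (n : ℕ) : Type := (Fin n → ℝ) × (Fin n → ℝ)

/-- the standard symplectic form `∑ dx_i ∧ dy_i` on `ℝ^{2n}` -/
def omegaSt (n : ℕ) (a b : V n) : ℝ := ∑ i, (a.1 i * b.2 i - b.1 i * a.2 i)

/-- `φ` is a smooth diffeomorphism of `ℝ^{2n}` (with smooth inverse) which preserves the standard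
symplectic form -/
structure IsSymplecto {n : ℕ} (φ : V n → V n) : Prop where
  smooth : ContDiff ℝ ∞ φ
  inv : ∃ ψ : V n → V n, ContDiff ℝ ∞ ψ ∧ LeftInverse ψ φ ∧ RightInverse ψ φ
  pres : ∀ z x y, omegaSt n (fderiv ℝ φ z x) (fderiv ℝ φ z y) = omegaSt n x y

/-- the symplectomorphisms supported in the compact set `K` -/
def SympK (n : ℕ) (K : Compacts (V n)) : Type :=
  {φ : V n → V n // IsSymplecto φ ∧ ∀ z, z ∉ K → φ z = z}

/-- `Symp_ct(ℝ^{2n})` -/
def Symp (n : ℕ) : Type :=
  {φ : V n → V n // IsSymplecto φ ∧ ∃ K : Compacts (V n), ∀ z, z ∉ K → φ z = z}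

/-- the `k`-th derivative as a continuous map; continuous maps carry the compact-open topology -/
def jet {n : ℕ} {K : Compacts (V n)} (k : ℕ) (φ : SympK n K) :
    C(V n, ContinuousMultilinearMap ℝ (fun _ : Fin k => V n) (V n)) :=
  ⟨iteratedFDeriv ℝ k φ.1, φ.2.1.smooth.continuous_iteratedFDeriv (by exact_mod_cast le_top)⟩

/-- the `C^∞` topology on `SympK n K` -/
instance (n : ℕ) (K : Compacts (V n)) : TopologicalSpace (SympK n K) :=
  ⨅ k : ℕ, TopologicalSpace.induced (jet (n := n) (K := K) k) inferInstance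

/-- the inclusion of `SympK n K` -/
def incl (n : ℕ) (K : Compacts (V n)) (φ : SympK n K) : Symp n := ⟨φ.1, φ.2.1, K, φ.2.2⟩

/-- the direct limit topology, over all compact sets, of the `C^∞` topologies -/
instance (n : ℕ) : TopologicalSpace (Symp n) :=
  ⨆ K : Compacts (V n), TopologicalSpace.coinduced (incl n K) inferInstance

/-- `γ` is the pointwise composition of `α` and `β` -/
def IsProd {n : ℕ} {X : Type} [TopologicalSpace X] (γ α β : C(X, Symp n)) : Prop :=
  ∀ x, (γ x).1 = (α x).1 ∘ (β x).1

/-- `γ` is the pointwise inverse of `α` -/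
def IsInv {n : ℕ} {X : Type} [TopologicalSpace X] (γ α : C(X, Symp n)) : Prop :=
  ∀ x, (γ x).1 ∘ (α x).1 = id ∧ (α x).1 ∘ (γ x).1 = id

/-- `c` is conjugation by `f`, that is `c φ = f φ f⁻¹` -/
def IsConjBy {n : ℕ} (f : V n → V n) (c : C(Symp n, Symp n)) : Prop :=
  ∀ φ, (c φ).1 ∘ f = f ∘ φ.1

/-- the standard form as a bilinear map -/
def omLin (n : ℕ) : V n →ₗ[ℝ] V n →ₗ[ℝ] ℝ :=
  LinearMap.mk₂ ℝ (fun a b => ∑ i, (a.1 i * b.2 i - b.1 i * a.2 i))
    (by
      intro a a' b
      rw [← Finset.sum_add_distrib]
      exact Finset.sum_congr rfl fun i _ => by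
        simp only [Prod.fst_add, Prod.snd_add, Pi.add_apply]; ring)
    (by
      intro c a b
      rw [Finset.smul_sum]
      exact Finset.sum_congr rfl fun i _ => by
        simp only [Prod.smul_fst, Prod.smul_snd, Pi.smul_apply, smul_eq_mul]; ring)
    (by
      intro a b b'
      rw [← Finset.sum_add_distrib]
      exact Finset.sum_congr rfl fun i _ => by
        simp only [Prod.fst_add, Prod.snd_add, Pi.add_apply]; ring)
    (by
      intro c a b
      rw [Finset.smul_sum]
      exact Finset.sum_congr rfl fun i _ => by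
        simp only [Prod.smul_fst, Prod.smul_snd, Pi.smul_apply, smul_eq_mul]; ring)

theorem nondeg (n : ℕ) : ∀ x, (∀ y, omLin n x y = 0) → x = 0 := by
  intro x h
  have h1 : ∀ i, x.1 i = 0 := by
    intro i
    have := h (0, Pi.single i 1)
    simpa [omLin, Pi.single_apply] using this
  have h2 : ∀ i, x.2 i = 0 := by
    intro i
    have := h (Pi.single i 1, 0)
    simpa [omLin, Pi.single_apply] using this
  exact Prod.ext (funext h1) (funext h2)

theorem iff_sympl {n : ℕ} (φ : V n → V n) : IsSymplecto φ ↔ H518SY.IsSympl (omLin n) φ :=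
  ⟨fun h => ⟨h.1, h.2, h.3⟩, fun h => ⟨h.1, h.2, h.3⟩⟩

/-- comparison with the general development -/
def toK {n : ℕ} (K : Compacts (V n)) : H518SY.GK (omLin n) K ≃ₜ SympK n K where
  toFun φ := ⟨φ.1, (iff_sympl _).mpr φ.2.1, φ.2.2⟩
  invFun φ := ⟨φ.1, (iff_sympl _).mp φ.2.1, φ.2.2⟩
  left_inv _ := rfl
  right_inv _ := rfl
  continuous_toFun := by
    refine continuous_iInf_rng.mpr fun k => continuous_induced_rng.mpr ?_
    exact H518SY.continuous_jet (om := omLin n) (K := K) k
  continuous_invFun := by
    apply H518SY.continuous_to_GK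
    intro k
    have : Continuous (jet (n := n) (K := K) k) := by
      rw [continuous_iff_le_induced]
      exact iInf_le (fun k : ℕ => TopologicalSpace.induced (jet (n := n) (K := K) k)
        inferInstance) k
    exact this

theorem continuous_incl {n : ℕ} (K : Compacts (V n)) : Continuous (incl n K) := by
  rw [continuous_iff_coinduced_le]
  exact le_iSup (fun K : Compacts (V n) => TopologicalSpace.coinduced (incl n K) inferInstance) K

/-- comparison with the general development -/
def toSymp {n : ℕ} : H518SY.G (omLin n) ≃ₜ Symp n where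
  toFun φ := ⟨φ.1, (iff_sympl _).mpr φ.2.1, φ.2.2⟩
  invFun φ := ⟨φ.1, (iff_sympl _).mp φ.2.1, φ.2.2⟩
  left_inv _ := rfl
  right_inv _ := rfl
  continuous_toFun := by
    refine continuous_iSup_dom.mpr fun K => continuous_coinduced_dom.mpr ?_
    exact (continuous_incl K).comp (toK K).continuous
  continuous_invFun := by
    refine continuous_iSup_dom.mpr fun K => continuous_coinduced_dom.mpr ?_
    exact (H518SY.continuous_incl (omLin n) K).comp (toK K).symm.continuous

theorem alt (n : ℕ) (x : V n) : omLin n x x = 0 := by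
  show ∑ i, (x.1 i * x.2 i - x.1 i * x.2 i) = 0
  simp

/-- a continuous map into `Symp n` seen in the general development -/
def down {n : ℕ} {X : Type} [TopologicalSpace X] (α : C(X, Symp n)) :
    C(X, H518SY.G (omLin n)) :=
  (⟨toSymp.symm, toSymp.symm.continuous⟩ : C(Symp n, H518SY.G (omLin n))).comp α

/-- and back -/
def up {n : ℕ} {X : Type} [TopologicalSpace X] (α : C(X, H518SY.G (omLin n))) :
    C(X, Symp n) :=
  (⟨toSymp, toSymp.continuous⟩ : C(H518SY.G (omLin n), Symp n)).comp α

theorem up_down {n : ℕ} {X : Type} [TopologicalSpace X] (α : C(X, Symp n)) :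
    up (down α) = α := rfl

theorem down_homotopic {n : ℕ} {X : Type} [TopologicalSpace X] {α β : C(X, Symp n)}
    (h : α.Homotopic β) : (down α).Homotopic (down β) :=
  ContinuousMap.Homotopic.comp (ContinuousMap.Homotopic.refl _) h

theorem up_homotopic {n : ℕ} {X : Type} [TopologicalSpace X]
    {α β : C(X, H518SY.G (omLin n))} (h : α.Homotopic β) : (up α).Homotopic (up β) :=
  ContinuousMap.Homotopic.comp (ContinuousMap.Homotopic.refl _) h

/-- Let `G = Symp_ct(ℝ^{2n})`, `n` arbitrary.
(1)-(3) For every compact space `X` the set `[X, G]` of homotopy classes of continuous maps is an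
abelian group under pointwise composition: pointwise compositions and pointwise inverses of
continuous maps `X → G` are continuous, and the class of the composition depends only on the
classes of the factors and not on their order.
(4) For every symplectomorphism `f` of `ℝ^{2n}`, without any condition on its support,
the conjugation `φ ↦ f φ f⁻¹` is a continuous map `G → G` which is homotopic to the identity. -/
theorem result :
    (∀ (n : ℕ) (X : Type) [TopologicalSpace X] [CompactSpace X],
      (∀ α β : C(X, Symp n), ∃ γ, IsProd γ α β) ∧ (∀ α : C(X, Symp n), ∃ γ, IsInv γ α) ∧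
      (∀ α α' β β' γ γ' : C(X, Symp n), α.Homotopic α' → β.Homotopic β' →
        IsProd γ α β → (IsProd γ' α' β' ∨ IsProd γ' β' α') → γ.Homotopic γ')) ∧
    (∀ (n : ℕ) (f : V n → V n), IsSymplecto f →
      ∃ c, IsConjBy f c ∧ c.Homotopic (ContinuousMap.id (Symp n))) := by
  refine ⟨fun n X _ _ => ⟨?_, ?_, ?_⟩, ?_⟩
  · intro α β
    obtain ⟨γ, hγ⟩ := H518SY.exists_mul (down α) (down β)
    exact ⟨up γ, fun x => funext fun z => hγ x z⟩
  · intro α
    obtain ⟨γ, hγ⟩ := H518SY.exists_inv (nondeg n) (down α)
    exact ⟨up γ, fun x => ⟨funext fun z => (hγ x).1 z, funext fun z => (hγ x).2 z⟩⟩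
  · intro α α' β β' γ γ' h h' hγ hγ'
    have h1 := down_homotopic h
    have h2 := down_homotopic h'
    obtain ⟨δ, hδ⟩ := H518SY.exists_mul (down α') (down β')
    have h3 : (down γ).Homotopic δ :=
      H518SY.homotopic_mul h1 h2 (fun x z => congrFun (hγ x) z) hδ
    rcases hγ' with hγ' | hγ'
    · have h4 : δ = down γ' := by
        ext x
        apply Subtype.ext
        funext z
        rw [hδ x z]
        exact (congrFun (hγ' x) z).symm
      rw [h4] at h3
      exact up_homotopic h3
    · have h4 : δ.Homotopic (down γ') :=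
        H518SY.homotopic_comm hδ (fun x z => congrFun (hγ' x) z)
      exact up_homotopic (h3.trans h4)
  · intro n f hf
    obtain ⟨c, hc⟩ := H518SY.exists_conj ((iff_sympl f).mp hf)
    have hh := H518SY.conj_general (alt n) (nondeg n) ((iff_sympl f).mp hf) hc
    refine ⟨(up c).comp ⟨toSymp.symm, toSymp.symm.continuous⟩, ?_, ?_⟩
    · intro φ
      funext z
      exact hc (toSymp.symm φ) z
    · have h1 := ContinuousMap.Homotopic.comp (up_homotopic hh)
        (ContinuousMap.Homotopic.refl (⟨toSymp.symm, toSymp.symm.continuous⟩ :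
          C(Symp n, H518SY.G (omLin n))))
      exact h1

end Pool.Agent.Results.MP_ec5dc5_gt.HomotopyCommutative
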